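import Pool.Agent.X331.UI.Dens

/-! # `ℒ_∞`-ultraproducts over good ultrafilters are aleph-injective -/

set_option autoImplicit false

namespace Pool.Agent.Results.MP_17402e_an.LInftyUltraproducts

open Cardinal Pool.Agent.X331.UI

universe u v

/-- For every infinite cardinal `κ`, every countably incomplete `κ`-good ultrafilter `U` on a set
`I` and every family of real or complex Banach spaces whose ultraproduct is an `ℒ_∞`-space, the
ultraproduct is `κ`-injective, and it is even universally `(lam, κ)`-injective for every `lam ≥ 1`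
for which it is an `ℒ_{∞,lam}`-space. -/
theorem result (𝕜 : Type v) [RCLike 𝕜] (κ : Cardinal.{u}) (_ : ℵ₀ ≤ κ) {I : Type u}
    (U : Ultrafilter I) (hU : CountablyIncomplete U) (hG : Good κ U) (X : I → Type u)
    [∀ i, NormedAddCommGroup (X i)] [∀ i, NormedSpace 𝕜 (X i)] [∀ i, CompleteSpace (X i)]
    (hE : IsLInfty 𝕜 (Ultraprod 𝕜 U X)) :
    AlephInjective 𝕜 (Ultraprod 𝕜 U X) κ ∧
      ∀ lam : ℝ, 1 ≤ lam → LInfty 𝕜 (Ultraprod 𝕜 U X) (ENNReal.ofReal lam) →
        UnivInjective 𝕜 (Ultraprod 𝕜 U X) lam κ := by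
  have h1 : ∀ lam : ℝ, 1 ≤ lam → LInfty 𝕜 (Ultraprod 𝕜 U X) (ENNReal.ofReal lam) →
      UnivInjective 𝕜 (Ultraprod 𝕜 U X) lam κ := fun lam hlam h =>
    main hU hG (zero_le_one.trans hlam) (h.plus (zero_le_one.trans hlam))
  refine ⟨?_, h1⟩
  obtain ⟨lam, hlam, h⟩ := hE
  intro Z _ _ _ Y hY hd t
  obtain ⟨T, hT, _⟩ := h1 lam hlam h Z Y hY (dens_sub Y hd) t
  exact ⟨T, hT⟩

end Pool.Agent.Results.MP_17402e_an.LInftyUltraproducts
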